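import Mathlib

/-!
FD, step 2, whole class step without complex analysis (note 3589).

`LP`, `LL` : the polylogarithms `L_m(t) = (t d/dt)^m 1/(1-t)`.
`inv_stable` : if the four-term combination of the sums over `s_v` vanishes for every even `m`,
then the multiset `{s_v}` is stable under inversion.
-/

namespace H86FD

open PowerSeries

/-- `P_0 = 1`, `P_{m+1} = X(1-X)P_m' + (m+1) X P_m`. -/
noncomputable def LP : ℕ → Polynomial ℤ
  | 0 => 1
  | m + 1 => Polynomial.X * (1 - Polynomial.X) * Polynomial.derivative (LP m)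
      + ((m : Polynomial ℤ) + 1) * Polynomial.X * LP m

/-- `L_m(t) = P_m(t)/(1-t)^(m+1)`. -/
noncomputable def LL {F : Type*} [Field F] (m : ℕ) (t : F) : F :=
  ((LP m).map (Int.castRingHom F)).eval t / (1 - t) ^ (m + 1)

variable {k : Type*} [Field k] [CharZero k]

/-- generating function -/
noncomputable def GG (t : k) : k⟦X⟧ := (1 - C t * exp k)⁻¹

theorem cc_GG (t : k) : constantCoeff (1 - C t * exp k) = 1 - t := by
  simp

theorem GG_mul {t : k} (ht : t ≠ 1) : (1 - C t * exp k) * GG t = 1 := by
  unfold GG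
  apply PowerSeries.mul_inv_cancel
  rw [cc_GG]
  exact sub_ne_zero.mpr ht.symm

theorem deriv_iter {t : k} (ht : t ≠ 1) (m : ℕ) :
    (derivative k)^[m] (GG t) =
      (Polynomial.aeval (C t * exp k) (LP m)) * GG t ^ (m + 1) := by
  have hdE : derivative k (C t * exp k) = C t * exp k := by
    rw [Derivation.leibniz, derivative_C, derivative_exp]
    simp
  have hdG : derivative k (GG t) = GG t ^ 2 * (C t * exp k) := by
    have h1 := congrArg (derivative k) (GG_mul ht)
    rw [Derivation.leibniz] at h1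
    simp only [smul_eq_mul, map_sub, hdE] at h1
    have h2 : derivative k (1 : k⟦X⟧) = 0 := by simp
    rw [h2] at h1
    have h3 := GG_mul ht
    linear_combination (GG t) * h1 - (derivative k (GG t)) * h3
  induction m with
  | zero => simp [LP]
  | succ m ih =>
    rw [Function.iterate_succ_apply', ih, Derivation.leibniz, derivative_pow, hdG]
    have hdP : derivative k (Polynomial.aeval (C t * exp k) (LP m)) =
        (Polynomial.aeval (C t * exp k) (Polynomial.derivative (LP m))) * (C t * exp k) := by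
      have h5 := Derivation.map_aeval (derivative k) ((LP m).map (algebraMap ℤ k)) (C t * exp k)
      rw [Polynomial.aeval_map_algebraMap, Polynomial.derivative_map,
        Polynomial.aeval_map_algebraMap, hdE] at h5
      rw [h5, smul_eq_mul]
    rw [hdP]
    simp only [LP, map_add, map_mul, map_sub, Polynomial.aeval_X, map_one, map_natCast,
      smul_eq_mul]
    have h3 := GG_mul ht
    push_cast
    linear_combination (-(GG t ^ (m + 1) * (Polynomial.aeval (C t * exp k))
      (Polynomial.derivative (LP m)) * (C t * exp k))) * h3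

/-- coefficients of the generating function -/
theorem coeff_GG {t : k} (ht : t ≠ 1) (m : ℕ) :
    (m.factorial : k) * coeff m (GG t) = LL m t := by
  rw [← constantCoeff_iterate_derivative, deriv_iter ht m]
  rw [map_mul, map_pow]
  have h1 : constantCoeff (GG t) = (1 - t)⁻¹ := by
    unfold GG
    rw [PowerSeries.constantCoeff_inv, cc_GG]
  have h2 : constantCoeff (Polynomial.aeval (C t * exp k) (LP m)) =
      ((LP m).map (Int.castRingHom k)).eval t := by
    rw [Polynomial.aeval_def, Polynomial.hom_eval₂, Polynomial.eval_map]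
    congr 1
    simp
  rw [h1, h2, LL, inv_pow, div_eq_mul_inv]

/-- evaluation at `exp` is injective -/
theorem ev_inj (P : Polynomial k) (h : Polynomial.aeval (exp k) P = 0) : P = 0 := by
  by_contra hP
  obtain ⟨Q, hQ, hQ1⟩ := Polynomial.exists_eq_pow_rootMultiplicity_mul_and_not_dvd P hP 1
  rw [Polynomial.dvd_iff_isRoot, Polynomial.IsRoot.def] at hQ1
  rw [hQ, map_mul, map_pow, mul_eq_zero] at h
  rcases h with h | h
  · have h1 := eq_zero_of_pow_eq_zero h
    have h2 := congrArg (coeff 1) h1
    simp at h2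
  · have h2 := congrArg constantCoeff h
    rw [Polynomial.aeval_def, Polynomial.hom_eval₂] at h2
    simp at h2
    exact hQ1 h2

/-- from an identity at `exp` to an identity of rational functions -/
theorem transfer {ι : Type*} [Fintype ι] [DecidableEq ι] (c : ι → k) (d : ι → Polynomial k)
    (h1 : ∀ i, (d i).eval 1 ≠ 0) (h0 : ∀ i, (d i).eval 0 ≠ 0)
    (h : ∑ i, C (c i) * (Polynomial.aeval (exp k) (d i))⁻¹ = 0) :
    ∑ i, C (c i) * (d i : k⟦X⟧)⁻¹ = 0 := by
  have cc1 : ∀ i, constantCoeff (Polynomial.aeval (exp k) (d i)) ≠ 0 := by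
    intro i
    rw [Polynomial.aeval_def, Polynomial.hom_eval₂]
    have := h1 i
    rw [Polynomial.eval_eq_sum] at this
    simpa [Polynomial.eval₂_eq_sum] using this
  have cc0 : ∀ i, constantCoeff (d i : k⟦X⟧) ≠ 0 := by
    intro i
    rw [Polynomial.constantCoeff_coe, Polynomial.coeff_zero_eq_eval_zero]
    exact h0 i
  set P : Polynomial k := ∑ i, Polynomial.C (c i) * ∏ j ∈ Finset.univ.erase i, d j with hP
  have hPE : Polynomial.aeval (exp k) P = 0 := by
    have : Polynomial.aeval (exp k) P = (∏ j, Polynomial.aeval (exp k) (d j)) *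
        ∑ i, C (c i) * (Polynomial.aeval (exp k) (d i))⁻¹ := by
      rw [hP, map_sum, Finset.mul_sum]
      apply Finset.sum_congr rfl
      intro i _
      rw [map_mul, map_prod, Polynomial.aeval_C, ← Finset.mul_prod_erase _ _ (Finset.mem_univ i)]
      have h3 := PowerSeries.mul_inv_cancel _ (cc1 i)
      have h4 : algebraMap k k⟦X⟧ (c i) = C (c i) := rfl
      rw [h4]
      linear_combination (-(C (c i) * ∏ j ∈ Finset.univ.erase i,
        Polynomial.aeval (exp k) (d j))) * h3
    rw [this, h, mul_zero]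
  have hP0 := ev_inj P hPE
  have h5 : (P : k⟦X⟧) = (∏ j, (d j : k⟦X⟧)) * ∑ i, C (c i) * (d i : k⟦X⟧)⁻¹ := by
    rw [hP, Finset.mul_sum]
    rw [← Polynomial.coeToPowerSeries.ringHom_apply, map_sum]
    apply Finset.sum_congr rfl
    intro i _
    rw [map_mul, map_prod, ← Finset.mul_prod_erase _ _ (Finset.mem_univ i)]
    simp only [Polynomial.coeToPowerSeries.ringHom_apply, Polynomial.coe_C]
    have h3 := PowerSeries.mul_inv_cancel _ (cc0 i)
    linear_combination (-(C (c i) * ∏ j ∈ Finset.univ.erase i, (d j : k⟦X⟧))) * h3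
  rw [hP0, Polynomial.coe_zero] at h5
  rcases mul_eq_zero.mp h5.symm with h6 | h6
  · exfalso
    rw [Finset.prod_eq_zero_iff] at h6
    obtain ⟨j, _, hj⟩ := h6
    apply cc0 j
    rw [hj, map_zero]
  · exact h6

/-- the expansion of `1/(1-(aX)^r)` -/
theorem geom (a : k) (r : ℕ) (hr : 0 < r) :
    (((1 - Polynomial.C (a ^ r) * Polynomial.X ^ r : Polynomial k)) : k⟦X⟧)⁻¹ =
      PowerSeries.mk fun N => if r ∣ N then a ^ N else 0 := by
  have hc : constantCoeff (((1 - Polynomial.C (a ^ r) * Polynomial.X ^ r : Polynomial k)) : k⟦X⟧)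
      ≠ 0 := by
    rw [Polynomial.constantCoeff_coe, Polynomial.coeff_zero_eq_eval_zero]
    simp [hr.ne']
  symm
  rw [PowerSeries.eq_inv_iff_mul_eq_one hc]
  ext N
  push_cast
  rw [mul_sub, mul_one, map_sub, coeff_mk, ← mul_assoc, mul_comm _ (C _), mul_assoc,
    coeff_C_mul, coeff_mul_X_pow', coeff_one]
  by_cases hN : r ≤ N
  · rw [if_pos hN, coeff_mk]
    have h1 : r ∣ N - r ↔ r ∣ N := by
      constructor
      · intro h
        have := Nat.dvd_add h (dvd_refl r)
        rwa [Nat.sub_add_cancel hN] at this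
      · intro h
        exact Nat.dvd_sub h (dvd_refl r)
    rw [if_neg (show N ≠ 0 by omega)]
    by_cases h2 : r ∣ N
    · rw [if_pos h2, if_pos (h1.mpr h2), ← pow_add, Nat.add_sub_cancel' hN, sub_self]
    · rw [if_neg h2, if_neg (fun h => h2 (h1.mp h)), mul_zero, sub_zero]
  · rw [if_neg hN, mul_zero, sub_zero]
    by_cases h0 : N = 0
    · subst h0; simp
    · rw [if_neg h0, if_neg]
      intro h
      exact hN (Nat.le_of_dvd (Nat.pos_of_ne_zero h0) h)

open Classical in
/-- the last step: equal weighted power sums for `N = 1..2n` -/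
theorem vandw {ι : Type*} [Fintype ι] (s c : ι → k) (e : k) (hs0 : ∀ v, s v ≠ 0)
    (h : ∀ N, 1 ≤ N → N ≤ 2 * Fintype.card ι →
      ∑ v, c v * (s v ^ N - e * ((s v)⁻¹) ^ N) = 0) (x : k) :
    (∑ v ∈ Finset.univ.filter (fun v => s v = x), c v) =
      e * ∑ v ∈ Finset.univ.filter (fun v => (s v)⁻¹ = x), c v := by
  by_cases hx : x = 0
  · subst hx
    rw [Finset.filter_false_of_mem, Finset.filter_false_of_mem]
    · simp
    · intro v _; simp [hs0 v]
    · intro v _; simp [hs0 v]
  set S : Finset k := Finset.univ.image s ∪ Finset.univ.image (fun v => (s v)⁻¹) with hS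
  have hScard : S.card ≤ 2 * Fintype.card ι := by
    refine (Finset.card_union_le _ _).trans ?_
    have h1 := Finset.card_image_le (s := (Finset.univ : Finset ι)) (f := s)
    have h2 := Finset.card_image_le (s := (Finset.univ : Finset ι)) (f := fun v => (s v)⁻¹)
    rw [Finset.card_univ] at h1 h2
    omega
  by_cases hxS : x ∈ S
  swap
  · rw [Finset.filter_false_of_mem, Finset.filter_false_of_mem]
    · simp
    · intro v _ hv
      apply hxS
      rw [hS, Finset.mem_union, Finset.mem_image, Finset.mem_image]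
      exact Or.inr ⟨v, Finset.mem_univ _, hv⟩
    · intro v _ hv
      apply hxS
      rw [hS, Finset.mem_union, Finset.mem_image, Finset.mem_image]
      exact Or.inl ⟨v, Finset.mem_univ _, hv⟩
  set f : Polynomial k := Polynomial.X * ∏ y ∈ S.erase x, (Polynomial.X - Polynomial.C y) with hf
  have hdeg : f.natDegree ≤ 2 * Fintype.card ι := by
    have h1 : f.natDegree ≤ 1 + (S.erase x).card := by
      rw [hf]
      refine Polynomial.natDegree_mul_le.trans ?_
      rw [Polynomial.natDegree_X]
      refine Nat.add_le_add_left ?_ 1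
      refine (Polynomial.natDegree_prod_le _ _).trans ?_
      simp
    rw [Finset.card_erase_of_mem hxS] at h1
    have h2 : 0 < S.card := Finset.card_pos.mpr ⟨x, hxS⟩
    omega
  have hf0 : f.coeff 0 = 0 := by
    rw [hf]; simp
  have key : ∑ v, c v * (f.eval (s v) - e * f.eval ((s v)⁻¹)) = 0 := by
    have h1 : ∀ v, c v * (f.eval (s v) - e * f.eval ((s v)⁻¹)) =
        ∑ N ∈ Finset.range (2 * Fintype.card ι + 1),
          f.coeff N * (c v * (s v ^ N - e * ((s v)⁻¹) ^ N)) := by
      intro v
      rw [Polynomial.eval_eq_sum_range' (show f.natDegree < 2 * Fintype.card ι + 1 by omega),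
        Polynomial.eval_eq_sum_range' (show f.natDegree < 2 * Fintype.card ι + 1 by omega),
        Finset.mul_sum, ← Finset.sum_sub_distrib, Finset.mul_sum]
      apply Finset.sum_congr rfl
      intro N _
      ring
    rw [Finset.sum_congr rfl (fun v _ => h1 v), Finset.sum_comm]
    apply Finset.sum_eq_zero
    intro N hN
    rw [← Finset.mul_sum]
    rcases Nat.eq_zero_or_pos N with h0 | h0
    · rw [h0, hf0, zero_mul]
    · rw [h N h0 (by rw [Finset.mem_range] at hN; omega), mul_zero]
  have hfx : f.eval x ≠ 0 := by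
    rw [hf, Polynomial.eval_mul, Polynomial.eval_X, Polynomial.eval_prod]
    refine mul_ne_zero hx (Finset.prod_ne_zero_iff.mpr ?_)
    intro y hy
    rw [Polynomial.eval_sub, Polynomial.eval_X, Polynomial.eval_C]
    exact sub_ne_zero.mpr (Finset.ne_of_mem_erase hy).symm
  have hfy : ∀ y ∈ S, y ≠ x → f.eval y = 0 := by
    intro y hy hyx
    rw [hf, Polynomial.eval_mul, Polynomial.eval_prod]
    rw [Finset.prod_eq_zero (Finset.mem_erase.mpr ⟨hyx, hy⟩), mul_zero]
    simp
  have hsum : ∀ g : ι → k, (∀ v, g v ∈ S) →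
      ∑ v, c v * f.eval (g v) = (∑ v ∈ Finset.univ.filter (fun v => g v = x), c v) * f.eval x := by
    intro g hg
    rw [← Finset.sum_filter_add_sum_filter_not Finset.univ (fun v => g v = x)]
    have h1 : ∑ v ∈ Finset.univ.filter (fun v => g v = x), c v * f.eval (g v) =
        (∑ v ∈ Finset.univ.filter (fun v => g v = x), c v) * f.eval x := by
      rw [Finset.sum_mul]
      apply Finset.sum_congr rfl
      intro v hv
      rw [(Finset.mem_filter.mp hv).2]
    have h2 : ∑ v ∈ Finset.univ.filter (fun v => ¬ g v = x), c v * f.eval (g v) = 0 := by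
      apply Finset.sum_eq_zero
      intro v hv
      rw [hfy _ (hg v) (Finset.mem_filter.mp hv).2, mul_zero]
    rw [h1, h2, add_zero]
  have h3 : ∑ v, c v * (f.eval (s v) - e * f.eval ((s v)⁻¹)) =
      (∑ v, c v * f.eval (s v)) - e * ∑ v, c v * f.eval ((s v)⁻¹) := by
    rw [Finset.mul_sum, ← Finset.sum_sub_distrib]
    apply Finset.sum_congr rfl
    intro v _
    ring
  rw [h3, hsum s, hsum (fun v => (s v)⁻¹), ← mul_assoc, ← sub_mul] at key
  · rcases mul_eq_zero.mp key with h1 | h1
    · exact sub_eq_zero.mp h1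
    · exact absurd h1 hfx
  · intro v
    rw [hS, Finset.mem_union, Finset.mem_image, Finset.mem_image]
    exact Or.inr ⟨v, Finset.mem_univ _, rfl⟩
  · intro v
    rw [hS, Finset.mem_union, Finset.mem_image, Finset.mem_image]
    exact Or.inl ⟨v, Finset.mem_univ _, rfl⟩

/-- the denominators -/
noncomputable def dd (a : k) (r : ℕ) : Polynomial k :=
  1 - Polynomial.C (a ^ r) * Polynomial.X ^ r

theorem aeval_dd (a : k) (r : ℕ) :
    Polynomial.aeval (exp k) (dd a r) = rescale (r : k) (1 - C (a ^ r) * exp k) := by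
  unfold dd
  simp only [map_sub, map_mul, map_pow, Polynomial.aeval_X, map_one, Polynomial.aeval_C]
  rw [exp_pow_eq_rescale_exp]
  have h1 : algebraMap k k⟦X⟧ a = C a := rfl
  have h2 : rescale (r : k) (C a) = C a := by
    ext n
    rw [coeff_rescale, coeff_C]
    split_ifs with h
    · subst h; simp
    · simp
  rw [h1, h2]

theorem inv_dd {a : k} {r : ℕ} (h : a ^ r ≠ 1) :
    (Polynomial.aeval (exp k) (dd a r))⁻¹ = rescale (r : k) (GG (a ^ r)) := by
  symm
  rw [PowerSeries.eq_inv_iff_mul_eq_one, aeval_dd, ← map_mul, mul_comm, GG_mul h, map_one]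
  rw [aeval_dd]
  have h1 : constantCoeff (rescale (r : k) (1 - C (a ^ r) * exp k)) = 1 - a ^ r := by
    rw [← coeff_zero_eq_constantCoeff_apply, coeff_rescale, pow_zero, one_mul,
      coeff_zero_eq_constantCoeff_apply, cc_GG]
  rw [h1]
  exact sub_ne_zero.mpr h.symm

/-- `1/(1-s^r E^r) + ... = 1` -/
theorem inv_dd_inv {a : k} (ha : a ≠ 0) {r : ℕ} (h : a ^ r ≠ 1) :
    (Polynomial.aeval (exp k) (dd a⁻¹ r))⁻¹ = 1 - rescale (-1 : k) (rescale (r : k) (GG (a ^ r))) := by
  have h' : (a⁻¹) ^ r ≠ 1 := by
    intro h1; apply h; rw [inv_pow, inv_eq_one] at h1; exact h1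
  symm
  rw [PowerSeries.eq_inv_iff_mul_eq_one]
  · have h2 := congrArg (fun f => rescale (-1 : k) (rescale (r : k) f)) (GG_mul h)
    simp only [map_mul, map_sub, map_one] at h2
    have h3 : ∀ b : k, ∀ t : k, rescale b (C t) = C t := by
      intro b t
      ext n
      rw [coeff_rescale, coeff_C]
      split_ifs with h
      · subst h; simp
      · simp
    rw [h3, h3] at h2
    rw [aeval_dd, map_sub, map_one, map_mul, h3]
    set w := rescale (r : k) (exp k) with hw
    have h4 : rescale (-1 : k) w * w = 1 := by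
      rw [hw, ← exp_pow_eq_rescale_exp, map_pow, ← mul_pow]
      have h5 : rescale (-1 : k) (exp k) * exp k = 1 := by
        rw [mul_comm]
        exact exp_mul_exp_neg_eq_one
      rw [h5, one_pow]
    have h6 : C (a⁻¹ ^ r) * C (a ^ r) = (1 : k⟦X⟧) := by
      rw [← map_mul, ← mul_pow, inv_mul_cancel₀ ha, one_pow, map_one]
    set G := rescale (-1 : k) (rescale (r : k) (GG (a ^ r))) with hG
    set u := rescale (-1 : k) w with hu
    linear_combination (C (a⁻¹ ^ r) * w) * h2 + (G * C (a⁻¹ ^ r) * C (a ^ r)) * h4 + G * h6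
  · rw [aeval_dd]
    have h1 : constantCoeff (rescale (r : k) (1 - C (a⁻¹ ^ r) * exp k)) = 1 - a⁻¹ ^ r := by
      rw [← coeff_zero_eq_constantCoeff_apply, coeff_rescale, pow_zero, one_mul,
        coeff_zero_eq_constantCoeff_apply, cc_GG]
    rw [h1]
    exact sub_ne_zero.mpr h'.symm

/-- **whole class step, algebraic, with weights and parity.**  `l, q` are any two naturals such
that no `N = 1..2n` is divisible by `l` or `q` (e.g. `2n < l, q`), `l ≠ q` is not needed. -/
theorem inv_weights {ι : Type*} [Fintype ι] [DecidableEq ι] [DecidableEq k] (s c : ι → k)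
    (r l q : ℕ) (hl : 2 * Fintype.card ι < l) (hq : 2 * Fintype.card ι < q)
    (hs0 : ∀ v, s v ≠ 0) (hs1 : ∀ v, s v ^ (l * q) ≠ 1)
    (h : ∀ m, m % 2 = r % 2 → ∑ v, c v * (LL m (s v) - (l : k) ^ m * LL m (s v ^ l)
      - (q : k) ^ m * LL m (s v ^ q) + ((l : k) * q) ^ m * LL m (s v ^ (l * q))) = 0) (x : k) :
    (∑ v ∈ Finset.univ.filter (fun v => s v = x), c v) =
      (-1) ^ r * ∑ v ∈ Finset.univ.filter (fun v => (s v)⁻¹ = x), c v := by
  have hl0 : 0 < l := by omega
  have hq0 : 0 < q := by omega
  have e1 : ∀ v, s v ^ 1 ≠ 1 := fun v h1 => hs1 v (by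
    rw [pow_one] at h1; rw [h1, one_pow])
  have el : ∀ v, s v ^ l ≠ 1 := fun v h1 => hs1 v (by rw [pow_mul, h1, one_pow])
  have eq' : ∀ v, s v ^ q ≠ 1 := fun v h1 => hs1 v (by rw [mul_comm, pow_mul, h1, one_pow])
  set R : Fin 4 → ℕ := ![1, l, q, l * q] with hR
  set ε : Fin 4 → k := ![1, -1, -1, 1] with hε
  have hRne : ∀ v j, s v ^ R j ≠ 1 := by
    intro v j
    fin_cases j
    · exact e1 v
    · exact el v
    · exact eq' v
    · exact hs1 v
  have hR0 : ∀ j, 0 < R j := by
    intro j
    fin_cases j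
    · exact Nat.one_pos
    · exact hl0
    · exact hq0
    · exact Nat.mul_pos hl0 hq0
  have hRne' : ∀ v j, (s v)⁻¹ ^ R j ≠ 1 := by
    intro v j h1
    rw [inv_pow, inv_eq_one] at h1
    exact hRne v j h1
  -- the total sum at exp
  set A : ι → Fin 4 → k⟦X⟧ := fun v j => rescale (R j : k) (GG (s v ^ R j)) with hA
  set T : k⟦X⟧ := ∑ v, ∑ j, C (c v * ε j) * A v j with hT
  have hTc : ∀ m, m % 2 = r % 2 → coeff m T = 0 := by
    intro m hm
    have h1 := h m hm
    have h2 : (m.factorial : k) * coeff m T = 0 := by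
      rw [← h1, hT, map_sum, Finset.mul_sum]
      apply Finset.sum_congr rfl
      intro v _
      rw [map_sum, Finset.mul_sum]
      have h3 : ∀ j, (m.factorial : k) * coeff m (C (c v * ε j) * A v j) =
          c v * (ε j * ((R j : k) ^ m * LL m (s v ^ R j))) := by
        intro j
        rw [coeff_C_mul, hA]
        simp only
        rw [coeff_rescale, ← coeff_GG (hRne v j)]
        ring
      rw [Finset.sum_congr rfl (fun j _ => h3 j)]
      simp only [Fin.sum_univ_four, hR, hε]
      simp
      ring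
    rcases mul_eq_zero.mp h2 with h3 | h3
    · exact absurd h3 (by exact_mod_cast Nat.factorial_ne_zero m)
    · exact h3
  have hT2 : T + C ((-1) ^ r) * rescale (-1 : k) T = 0 := by
    ext m
    rw [map_add, coeff_C_mul, coeff_rescale, map_zero]
    by_cases hm : m % 2 = r % 2
    · rw [hTc m hm]; ring
    · have h1 : (-1 : k) ^ r * (-1) ^ m = -1 := by
        rw [← pow_add]
        apply Odd.neg_one_pow
        rw [Nat.odd_iff]
        omega
      rw [← mul_assoc, h1]; ring
  have htr := transfer (k := k) (ι := (ι × Fin 4) ⊕ (ι × Fin 4))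
    (Sum.elim (fun p => c p.1 * ε p.2) (fun p => -((-1) ^ r * (c p.1 * ε p.2))))
    (Sum.elim (fun p => dd (s p.1) (R p.2)) (fun p => dd (s p.1)⁻¹ (R p.2)))
    (by
      rintro (⟨v, j⟩ | ⟨v, j⟩)
      · simp only [Sum.elim_inl, dd]
        simp only [Polynomial.eval_sub, Polynomial.eval_one, Polynomial.eval_mul,
          Polynomial.eval_C, Polynomial.eval_pow, Polynomial.eval_X, one_pow, mul_one]
        exact sub_ne_zero.mpr (hRne v j).symm
      · simp only [Sum.elim_inr, dd]
        simp only [Polynomial.eval_sub, Polynomial.eval_one, Polynomial.eval_mul,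
          Polynomial.eval_C, Polynomial.eval_pow, Polynomial.eval_X, one_pow, mul_one]
        exact sub_ne_zero.mpr (hRne' v j).symm)
    (by
      rintro (⟨v, j⟩ | ⟨v, j⟩)
      · simp only [Sum.elim_inl, dd]
        simp [(hR0 j).ne']
      · simp only [Sum.elim_inr, dd]
        simp [(hR0 j).ne'])
    (by
      rw [Fintype.sum_sum_type]
      simp only [Sum.elim_inl, Sum.elim_inr]
      rw [Fintype.sum_prod_type, Fintype.sum_prod_type]
      have hX : ∀ v j, C (c v * ε j) * (Polynomial.aeval (exp k) (dd (s v) (R j)))⁻¹ =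
          C (c v * ε j) * A v j := by
        intro v j
        rw [inv_dd (hRne v j)]
      have hY : ∀ v j, C (-((-1) ^ r * (c v * ε j))) *
          (Polynomial.aeval (exp k) (dd (s v)⁻¹ (R j)))⁻¹ =
          C ((-1) ^ r) * (rescale (-1 : k) (C (c v * ε j) * A v j)) -
            C ((-1) ^ r) * C (c v) * C (ε j) := by
        intro v j
        rw [inv_dd_inv (hs0 v) (hRne v j)]
        have h3 : ∀ b : k, ∀ t : k, rescale b (C t) = C t := by
          intro b t
          ext n
          rw [coeff_rescale, coeff_C]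
          split_ifs with h
          · subst h; simp
          · simp
        rw [map_mul (rescale (-1 : k)), h3]
        simp only [map_neg, map_mul]
        ring
      have hε0 : ∑ j, ε j = 0 := by
        simp [Fin.sum_univ_four, hε]
      have hZ : ∑ v, ∑ j, (C ((-1) ^ r) * (rescale (-1 : k) (C (c v * ε j) * A v j)) -
            C ((-1) ^ r) * C (c v) * C (ε j)) = C ((-1) ^ r) * rescale (-1 : k) T := by
        rw [hT, map_sum, Finset.mul_sum]
        apply Finset.sum_congr rfl
        intro v _
        rw [Finset.sum_sub_distrib, ← Finset.mul_sum, ← Finset.mul_sum, ← map_sum C, hε0, map_zero,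
          mul_zero, sub_zero, map_sum]
      simp only [hX, hY]
      rw [hZ]
      exact hT2)
  rw [Fintype.sum_sum_type] at htr
  simp only [Sum.elim_inl, Sum.elim_inr] at htr
  rw [Fintype.sum_prod_type, Fintype.sum_prod_type] at htr
  have hfin : ∀ N, 1 ≤ N → N ≤ 2 * Fintype.card ι →
      ∑ v, c v * (s v ^ N - (-1) ^ r * ((s v)⁻¹) ^ N) = 0 := by
    intro N hN1 hN2
    have h1 := congrArg (coeff N) htr
    rw [map_add, map_sum, map_sum, map_zero, ← Finset.sum_add_distrib] at h1
    rw [← h1]
    apply Finset.sum_congr rfl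
    intro v _
    rw [map_sum, map_sum, Fin.sum_univ_four, Fin.sum_univ_four]
    simp only [coeff_C_mul]
    have hg : ∀ a : k, ∀ j, coeff N ((dd a (R j) : Polynomial k) : k⟦X⟧)⁻¹ =
        if R j ∣ N then a ^ N else 0 := by
      intro a j
      unfold dd
      rw [geom a (R j) (hR0 j), coeff_mk]
    simp only [hg]
    have hnl : ¬ l ∣ N := fun h => by
      have := Nat.le_of_dvd (by omega) h
      omega
    have hnq : ¬ q ∣ N := fun h => by
      have := Nat.le_of_dvd (by omega) h
      omega
    have hnlq : ¬ l * q ∣ N := fun h => hnl (dvd_trans (Dvd.intro _ rfl) h)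
    simp only [hR, hε]
    simp [hnl, hnq, hnlq]
    ring
  have hv := vandw s c ((-1) ^ r) hs0 hfin x
  convert hv

end H86FD
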